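import Mathlib

namespace Pool.Agent.Results.MP_fc66e6_co.Counter

open Finset Classical

/-- strong Roman dominating function; `(x + 1) / 2` is the ceiling of `x / 2` -/
def StRDF {V : Type} [Fintype V] (G : SimpleGraph V) (f : V → ℕ) : Prop :=
  (∀ v, f v ≤ (G.maxDegree + 1) / 2 + 1) ∧
    ∀ v, f v = 0 → ∃ w, G.Adj v w ∧ 2 ≤ f w ∧
      1 + ((univ.filter (fun u => G.Adj w u ∧ f u = 0)).card + 1) / 2 ≤ f w

/-- strong Roman domination number -/
noncomputable def gammaStR {V : Type} [Fintype V] (G : SimpleGraph V) : ℕ :=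
  sInf {k | ∃ f, StRDF G f ∧ ∑ v, f v = k}

def R (a b : Fin 11) : Bool :=
  let s := (a.1 + b.1) % 11
  s == 1 || s == 3 || s == 4 || s == 5 || s == 9

lemma R_symm : ∀ a b, R a b = R b a := by decide

abbrev C (m : ℕ) := Fin 11 × Fin m

def GG (m : ℕ) : SimpleGraph (C m × Bool) where
  Adj x y := (x.2 = false ∧ y.2 = false ∧ x.1 ≠ y.1 ∧ R x.1.1 y.1.1 = true) ∨
    (x.1 = y.1 ∧ x.2 ≠ y.2)
  symm := ⟨fun x y h => by
    rcases h with ⟨a, b, c, d⟩ | ⟨a, b⟩
    · exact Or.inl ⟨b, a, c.symm, by rw [R_symm]; exact d⟩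
    · exact Or.inr ⟨a.symm, b.symm⟩⟩
  loopless := ⟨fun x h => by
    rcases h with ⟨_, _, c, _⟩ | ⟨_, b⟩
    · exact c rfl
    · exact b rfl⟩

def cnt (W : Fin 11 → Bool) (b : Fin 11) : ℕ := ∑ a, if W a = true ∧ R a b = true then 1 else 0

lemma uB : ∀ b0 b1 b2 b3 b4 b5 b6 b7 b8 b9 b10 : Bool,
    (if b1.toNat + b3.toNat + b4.toNat + b5.toNat + b9.toNat = 1 then 1 else 0) +
    (if b0.toNat + b2.toNat + b3.toNat + b4.toNat + b8.toNat = 1 then 1 else 0) +
    (if b1.toNat + b2.toNat + b3.toNat + b7.toNat + b10.toNat = 1 then 1 else 0) +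
    (if b0.toNat + b1.toNat + b2.toNat + b6.toNat + b9.toNat = 1 then 1 else 0) +
    (if b0.toNat + b1.toNat + b5.toNat + b8.toNat + b10.toNat = 1 then 1 else 0) +
    (if b0.toNat + b4.toNat + b7.toNat + b9.toNat + b10.toNat = 1 then 1 else 0) +
    (if b3.toNat + b6.toNat + b8.toNat + b9.toNat + b10.toNat = 1 then 1 else 0) +
    (if b2.toNat + b5.toNat + b7.toNat + b8.toNat + b9.toNat = 1 then 1 else 0) +
    (if b1.toNat + b4.toNat + b6.toNat + b7.toNat + b8.toNat = 1 then 1 else 0) +
    (if b0.toNat + b3.toNat + b5.toNat + b6.toNat + b7.toNat = 1 then 1 else 0) +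
    (if b2.toNat + b4.toNat + b5.toNat + b6.toNat + b10.toNat = 1 then 1 else 0) ≤ 6 := by
  decide +kernel

lemma cnt_eq (W : Fin 11 → Bool) (b : Fin 11) :
    cnt W b = ∑ a, if R a b = true then (W a).toNat else 0 := by
  refine sum_congr rfl fun a _ => ?_
  cases W a <;> cases R a b <;> simp

lemma uW (W : Fin 11 → Bool) : (∑ b, if cnt W b = 1 then 1 else 0) ≤ 6 := by
  have := uB (W 0) (W 1) (W 2) (W 3) (W 4) (W 5) (W 6) (W 7) (W 8) (W 9) (W 10)
  simp only [cnt_eq, Fin.sum_univ_succ, Fin.sum_univ_zero]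
  simp only [add_assoc] at this
  simpa [R, add_assoc] using this

lemma two : ∀ a b : Fin 11, ∃ c, R a c = true ∧ R b c = true := by decide

lemma third : ∀ i : Fin 39, ∃ j : Fin 39, i ≠ j ∧ 0 ≠ j := by decide

lemma conn : (GG 39).Connected := by
  have key : ∀ x : C 39 × Bool, (GG 39).Reachable x ((0, 0), false) := by
    rintro ⟨x, t⟩
    have h1 : (GG 39).Reachable (x, false) ((0, 0), false) := by
      obtain ⟨c, h1, h2⟩ := two x.1 0
      obtain ⟨j, h3, h4⟩ := third x.2
      have a1 : (GG 39).Adj (x, false) ((c, j), false) :=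
        Or.inl ⟨rfl, rfl, fun e => h3 (congrArg Prod.snd e), h1⟩
      have a2 : (GG 39).Adj ((0, 0), false) ((c, j), false) :=
        Or.inl ⟨rfl, rfl, fun e => h4 (congrArg Prod.snd e), h2⟩
      exact a1.reachable.trans a2.reachable.symm
    cases t
    · exact h1
    · have : (GG 39).Adj (x, true) (x, false) := Or.inr ⟨rfl, by simp⟩
      exact this.reachable.trans h1
  exact ⟨fun x y => (key x).trans (key y).symm⟩

lemma lower (m : ℕ) (f : C m × Bool → ℕ) (hf : StRDF (GG m) f) :
    38 * m ≤ 2 * ∑ v, f v + 11 := by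
  obtain ⟨-, hf⟩ := hf
  set Df : C m → Prop := fun w => 2 ≤ f (w, false) ∧
    1 + ((univ.filter (fun u => (GG m).Adj (w, false) u ∧ f u = 0)).card + 1) / 2 ≤ f (w, false)
    with hD
  set W : Fin 11 → Bool := fun a => decide (∃ i, Df (a, i)) with hW
  set Z : C m → Prop := fun x => f (x, false) = 0 ∧ f (x, true) ≤ 1 with hZ
  set z : Fin 11 → ℕ := fun b => ∑ i : Fin m, if Z (b, i) then 1 else 0 with hz
  set d : Fin 11 → ℕ := fun a => ∑ b, if R a b = true then z b else 0 with hd
  have leaf : ∀ x : C m, f (x, true) = 0 → 2 ≤ f (x, false) := by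
    intro x hx
    obtain ⟨⟨w, t⟩, h1, h2, -⟩ := hf _ hx
    rcases h1 with ⟨a, -⟩ | ⟨a, b⟩
    · simp at a
    · simp only at a b
      subst a
      cases t
      · exact h2
      · simp at b
  have p1 : ∀ x : C m, 2 ≤ f (x, false) + f (x, true) + (if Z x then 1 else 0) := by
    intro x
    have := leaf x
    split_ifs with h
    · simp only [hZ] at h; omega
    · simp only [hZ] at h; omega
  have p2 : ∀ w : C m, Df w → 2 + d w.1 / 2 ≤ f (w, false) + f (w, true) := by
    intro w hw
    obtain ⟨h1, h2⟩ := hw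
    set S := univ.filter (fun u => (GG m).Adj (w, false) u ∧ f u = 0) with hS
    set A := (univ.filter (fun x : C m => R w.1 x.1 = true ∧ Z x)).image (fun x => (x, false)) with hA
    have cA : A.card = d w.1 := by
      rw [hA, card_image_of_injective _ (fun x y e => congrArg Prod.fst e), card_filter,
        Fintype.sum_prod_type]
      refine sum_congr rfl fun b _ => ?_
      by_cases h : R w.1 b = true <;> simp [h, hz]
    have sA : A ⊆ S := by
      intro u hu
      obtain ⟨x, hx, rfl⟩ := mem_image.1 hu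
      obtain ⟨-, hx1, hx2⟩ := mem_filter.1 hx
      refine mem_filter.2 ⟨mem_univ _, Or.inl ⟨rfl, rfl, ?_, hx1⟩, hx2.1⟩
      intro e
      have e' : w = x := e
      have := hx2.1
      rw [← e'] at this
      omega
    by_cases h0 : f (w, true) = 0
    · have nA : (w, true) ∉ A := by
        intro h
        obtain ⟨x, -, e⟩ := mem_image.1 h
        simp at e
      have : insert (w, true) A ⊆ S :=
        insert_subset (mem_filter.2 ⟨mem_univ _, Or.inr ⟨rfl, by simp⟩, h0⟩) sA
      have := card_le_card this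
      rw [card_insert_of_notMem nA] at this
      omega
    · have := card_le_card sA
      omega
  have p3 : ∀ a, m * 2 + (if W a = true then d a / 2 else 0) ≤
      (∑ i : Fin m, (f ((a, i), false) + f ((a, i), true))) + z a := by
    intro a
    rw [hz]
    simp only
    rw [← sum_add_distrib]
    split_ifs with h
    · obtain ⟨j, hj⟩ : ∃ i, Df (a, i) := by simpa [hW] using h
      have := sum_le_sum (s := univ) (f := fun i : Fin m => 2 + if i = j then d a / 2 else 0)
        (g := fun i => f ((a, i), false) + f ((a, i), true) + if Z (a, i) then 1 else 0)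
        (fun i _ => by
          by_cases e : i = j
          · subst e
            have := p2 _ hj
            simp only [if_true] at this ⊢
            omega
          · have := p1 (a, i)
            simp only [e, if_false]
            omega)
      rw [sum_add_distrib] at this
      simpa using this
    · have := sum_le_sum (s := univ) (f := fun _ : Fin m => 2)
        (g := fun i => f ((a, i), false) + f ((a, i), true) + if Z (a, i) then 1 else 0)
        (fun i _ => p1 (a, i))
      simpa using this
  have zle : ∀ b, z b ≤ m := by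
    intro b
    have := sum_le_sum (s := univ) (g := fun _ : Fin m => 1)
      (f := fun i => if Z (b, i) then 1 else 0) (fun i _ => by split_ifs <;> omega)
    simpa [hz] using this
  have z0 : ∀ b, cnt W b = 0 → z b = 0 := by
    intro b hb
    refine sum_eq_zero fun i _ => if_neg fun hZ' => ?_
    obtain ⟨⟨w, t⟩, h1, h2, h3⟩ := hf _ hZ'.1
    rcases h1 with ⟨-, a, -, c⟩ | ⟨a, c⟩
    · simp only at a c
      subst a
      have hw : W w.1 = true := by
        simp only [hW, decide_eq_true_eq]
        exact ⟨w.2, h2, h3⟩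
      have := (sum_eq_zero_iff.1 hb) w.1 (mem_univ _)
      rw [R_symm] at c
      simp [hw, c] at this
    · simp only at a c
      subst a
      cases t
      · simp at c
      · have := hZ'.2
        omega
  have p4 : ∀ b, 2 * z b ≤ cnt W b * z b + m * (if cnt W b = 1 then 1 else 0) := by
    intro b
    have h1 := zle b
    have h2 := z0 b
    split_ifs with h
    · rw [h]; omega
    · rcases Nat.eq_zero_or_pos (cnt W b) with e | e
      · rw [h2 e]; omega
      · have := Nat.mul_le_mul_right (z b) (show 2 ≤ cnt W b by omega)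
        omega
  have p5 : ∑ b, cnt W b * z b = ∑ a, if W a = true then d a else 0 := by
    simp only [cnt, sum_mul, hd]
    rw [sum_comm]
    refine sum_congr rfl fun a _ => ?_
    by_cases h : W a = true <;> simp [h]
  have p6 : ∀ a, (if W a = true then d a else 0) ≤ 2 * (if W a = true then d a / 2 else 0) + 1 := by
    intro a; split_ifs <;> omega
  have s3 := sum_le_sum (s := univ) fun a _ => p3 a
  have s4 := sum_le_sum (s := univ) fun a _ => p4 a
  have s6 := sum_le_sum (s := univ) fun a _ => p6 a
  have u := uW W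
  have tot : ∑ v, f v = ∑ a, ∑ i : Fin m, (f ((a, i), false) + f ((a, i), true)) := by
    rw [Fintype.sum_prod_type, Fintype.sum_prod_type]
    refine sum_congr rfl fun a _ => sum_congr rfl fun i _ => ?_
    rw [Fintype.sum_bool, add_comm]
  rw [sum_add_distrib, sum_add_distrib, ← tot] at s3
  rw [sum_add_distrib, ← mul_sum, ← mul_sum, p5] at s4
  rw [sum_add_distrib, ← mul_sum] at s6
  simp only [sum_const, card_univ, Fintype.card_fin, smul_eq_mul] at s3 s6
  have := Nat.mul_le_mul_left m u
  omega

theorem result : ∃ (V : Type) (_ : Fintype V) (G : SimpleGraph V), G.Connected ∧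
    3 ≤ Fintype.card V ∧ 6 * Fintype.card V < 7 * gammaStR G := by
  refine ⟨C 39 × Bool, inferInstance, GG 39, conn, by simp, ?_⟩
  have ne : {k | ∃ f, StRDF (GG 39) f ∧ ∑ v, f v = k}.Nonempty :=
    ⟨_, fun _ => 1, ⟨fun _ => Nat.le_add_left _ _, fun _ h => by simp at h⟩, rfl⟩
  obtain ⟨f, hf, e⟩ := Nat.sInf_mem ne
  have := lower 39 f hf
  rw [gammaStR, ← e]
  have c : Fintype.card (C 39 × Bool) = 858 := by simp
  omega

end Pool.Agent.Results.MP_fc66e6_co.Counter
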